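import Mathlib
import Pool.Agent.Helper73.SM.GoalsU

set_option autoImplicit false

namespace Pool.Agent.Helper84.SM

open Finset Pool.Agent.Helper73.SM

theorem isCoprime_primes {p r : ℕ} (hp : p.Prime) (hr : r.Prime) (h : p ≠ r) :
    IsCoprime (p : ℤ) (r : ℤ) :=
  Nat.isCoprime_iff_coprime.2 ((Nat.coprime_primes hp hr).2 h)

theorem goalUKY (hDT : StmtUDT) (hC3 : StmtUC3) (hCP : StmtUCP) (hPD : StmtUPD) :
    Pool.Agent.Helper73.SM.StmtUKY := by
  intro n N hn hN hlt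
  set D : ℤ := DD n with hD
  set g : ℤ := ((GG n (N : ℤ) : ℕ) : ℤ) with hg
  set g1 : ℤ := ((GG (n + 1) (N : ℤ) : ℕ) : ℤ) with hg1
  have hDpos : 0 < D := lt_of_lt_of_le one_pos (hDT.pos n)
  -- divisibility
  have h1 : ∀ s : ℤ, s = 1 ∨ s = -1 → g ∣ PZ s n N := by
    rintro s (rfl | rfl)
    · exact Int.gcd_dvd_left _ _
    · exact Int.gcd_dvd_right _ _
  have h2 : ∀ s : ℤ, s = 1 ∨ s = -1 → g1 ∣ PZ s (n + 1) N := by
    rintro s (rfl | rfl)
    · exact Int.gcd_dvd_left _ _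
    · exact Int.gcd_dvd_right _ _
  have hgg : g * g1 ∣ D := by
    rw [hD, ← hDT.det n N hN]
    refine dvd_sub ?_ ?_
    · rw [mul_comm g g1]
      exact mul_dvd_mul (h2 1 (Or.inl rfl)) (h1 (-1) (Or.inr rfl))
    · exact mul_dvd_mul (h1 1 (Or.inl rfl)) (h2 (-1) (Or.inr rfl))
  -- primes
  have hPCm : ∀ p ∈ PC n, n + 1 < p ∧ 2 * p ≤ 3 * n + 1 ∧ p.Prime := by
    intro p hp
    simp only [PC, mem_filter, mem_Ioc] at hp
    refine ⟨hp.1.1, ?_, hp.2⟩
    have := hp.1.2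
    omega
  have hPPm : ∀ p ∈ PP n, 3 * n + 1 < 2 * p ∧ p.Prime := by
    intro p hp
    simp only [PP, mem_filter, mem_Ioc] at hp
    refine ⟨?_, hp.2⟩
    have := hp.1.1
    omega
  set c1 : ℤ := 3 ^ ((n + 2) / 2) * ∏ p ∈ PC n, (p : ℤ) with hc1
  have h3p : ∀ p : ℕ, p.Prime → 3 < p → IsCoprime (3 : ℤ) (p : ℤ) := by
    intro p hp h3
    have := isCoprime_primes Nat.prime_three hp (by omega)
    exact_mod_cast this
  have hc1z : ∀ s : ℤ, s = 1 ∨ s = -1 → c1 ∣ PZ s (n + 1) N := by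
    intro s hs
    have hcop : IsCoprime ((3 : ℤ) ^ ((n + 2) / 2)) (∏ p ∈ PC n, (p : ℤ)) := by
      apply IsCoprime.pow_left
      apply IsCoprime.prod_right
      intro p hp
      have := hPCm p hp
      exact h3p p this.2.2 (by omega)
    refine hcop.mul_dvd ?_ ?_
    · exact hC3 s (n + 1) N hs (by omega)
    · refine Finset.prod_dvd_of_coprime ?_ ?_
      · intro p hp r hr hpr
        exact isCoprime_primes (hPCm p hp).2.2 (hPCm r hr).2.2 hpr
      · intro p hp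
        have := hPCm p hp
        exact hCP s (n + 1) p N hs this.2.2 this.1 (by omega)
  have hc1g : c1 ∣ g1 := by
    rw [hg1]
    exact Int.dvd_coe_gcd (hc1z 1 (Or.inl rfl)) (hc1z (-1) (Or.inr rfl))
  have hgc : g * c1 ∣ D := (mul_dvd_mul_left g hc1g).trans hgg
  set P1 : ℤ := ∏ p ∈ (PP n).filter (fun p => p ∣ GG n (N : ℤ)), (p : ℤ) with hP1
  set P2 : ℤ := ∏ p ∈ (PP n).filter (fun p => ¬ p ∣ GG n (N : ℤ)), (p : ℤ) with hP2
  have hU : ∏ p ∈ PP n, (p : ℤ) = P1 * P2 :=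
    (Finset.prod_filter_mul_prod_filter_not (PP n) (fun p => p ∣ GG n (N : ℤ))
      (fun p => (p : ℤ))).symm
  have hcopc : IsCoprime (g * c1) P2 := by
    apply IsCoprime.prod_right
    intro p hp
    rw [mem_filter] at hp
    have hpp := hPPm p hp.1
    refine IsCoprime.mul_left ?_ (IsCoprime.mul_left ?_ ?_)
    · rw [hg]
      refine Nat.isCoprime_iff_coprime.2 ?_
      exact ((Nat.Prime.coprime_iff_not_dvd hpp.2).2 hp.2).symm
    · apply IsCoprime.pow_left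
      exact h3p p hpp.2 (by omega)
    · apply IsCoprime.prod_left
      intro r hr
      have := hPCm r hr
      exact isCoprime_primes this.2.2 hpp.2 (by omega)
  have hP2D : P2 ∣ D := by
    refine Finset.prod_dvd_of_coprime ?_ ?_
    · intro p hp r hr hpr
      simp only [coe_filter, Set.mem_ofPred_eq] at hp hr
      exact isCoprime_primes (hPPm p hp.1).2 (hPPm r hr.1).2 hpr
    · intro p hp
      rw [mem_filter] at hp
      exact hPD n p hn hp.1
  have hall : g * c1 * P2 ∣ D := hcopc.mul_dvd hgc hP2D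
  have hle : g * c1 * P2 ≤ D := Int.le_of_dvd hDpos hall
  have hP1pos : 0 < P1 := by
    rw [hP1]
    refine Finset.prod_pos fun p hp => ?_
    rw [mem_filter] at hp
    exact_mod_cast (hPPm p hp.1).2.pos
  have hP2pos : 0 < P2 := by
    rw [hP2]
    refine Finset.prod_pos fun p hp => ?_
    rw [mem_filter] at hp
    exact_mod_cast (hPPm p hp.1).2.pos
  have hc1pos : 0 < c1 := by
    rw [hc1]
    refine mul_pos (by positivity) (Finset.prod_pos fun p hp => ?_)
    exact_mod_cast (hPCm p hp).2.2.pos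
  have hg0 : 0 ≤ g := by rw [hg]; positivity
  rw [hU]
  have e1 : (c1 * (P1 * P2)) ^ 2 * D < (c1 * (P1 * P2)) ^ 2 * g ^ 2 := by
    have : 0 < (c1 * (P1 * P2)) ^ 2 := by positivity
    exact mul_lt_mul_of_pos_left hlt this
  have e2 : (c1 * (P1 * P2)) ^ 2 * g ^ 2 ≤ D ^ 2 * P1 ^ 2 := by
    have e3 : c1 * (P1 * P2) * g ≤ D * P1 := by
      have : c1 * (P1 * P2) * g = g * c1 * P2 * P1 := by ring
      rw [this]
      exact mul_le_mul_of_nonneg_right hle hP1pos.le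
    have e4 : 0 ≤ c1 * (P1 * P2) * g := by positivity
    calc (c1 * (P1 * P2)) ^ 2 * g ^ 2 = (c1 * (P1 * P2) * g) ^ 2 := by ring
      _ ≤ (D * P1) ^ 2 := pow_le_pow_left₀ e4 e3 2
      _ = D ^ 2 * P1 ^ 2 := by ring
  have e5 : D * (c1 * (P1 * P2)) ^ 2 < D * (D * P1 ^ 2) := by
    calc D * (c1 * (P1 * P2)) ^ 2 = (c1 * (P1 * P2)) ^ 2 * D := by ring
      _ < _ := e1
      _ ≤ _ := e2
      _ = D * (D * P1 ^ 2) := by ring
  exact lt_of_mul_lt_mul_left e5 hDpos.le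

end Pool.Agent.Helper84.SM
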